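import Pool.Agent.K1H79.Q3.StmA
import Pool.Agent.H341R2.Stepanov

/-! # Q2: the complete sums of the products of shifts (piece `S_TUP` of project Q3 of helper79)

Owner helper72. -/

set_option autoImplicit false

namespace Pool.Agent.K1H72.Q3

open Finset Pool.Agent.K1H79.Q3 Polynomial

private theorem rm_prod {F : Type} [Field F] [DecidableEq F] {ι : Type} [DecidableEq ι]
    (s : Finset ι) (e : ι → F) (a : F) :
    (∏ i ∈ s, (X + C (e i)) : F[X]).rootMultiplicity a = (s.filter (fun i => e i = -a)).card := by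
  induction s using Finset.induction_on with
  | empty => simp
  | insert i s hi ih =>
    have hne : ∀ t : Finset ι, (∏ i ∈ t, (X + C (e i)) : F[X]) ≠ 0 := fun t =>
      (monic_prod_of_monic _ _ fun j _ => monic_X_add_C _).ne_zero
    rw [Finset.prod_insert hi, rootMultiplicity_mul (mul_ne_zero (monic_X_add_C _).ne_zero (hne s)),
      ih, Finset.filter_insert]
    have h1 : (X + C (e i) : F[X]).rootMultiplicity a = if e i = -a then 1 else 0 := by
      have : (X + C (e i) : F[X]) = X - C (-(e i)) := by simp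
      rw [this, rootMultiplicity_X_sub_C]
      congr 1
      exact propext ⟨fun h => by rw [h]; simp, fun h => by rw [h]; simp⟩
    rw [h1]
    split_ifs with h
    · rw [Finset.card_insert_of_notMem (by simp [hi])]; ring
    · simp

/-- the local bound in a finite field -/
lemma field_le {F : Type} [Field F] [Fintype F] [DecidableEq F] (hF : ringChar F ≠ 2) {n : ℕ}
    (hn : 1 ≤ n) (c : Fin n → F) (j : Fin n) (hj : ∀ i, i ≠ j → c i ≠ c j) :
    |∑ x : F, ∏ i, ((quadraticChar F (x + c i) : ℤ) : ℝ)| ≤ 5 * n * √(Fintype.card F) := by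
  obtain ⟨f, hf⟩ : ∃ f : F[X], f = ∏ i, (X + C (c i)) := ⟨_, rfl⟩
  have hm1 : f.Monic := hf ▸ monic_prod_of_monic _ _ fun j _ => monic_X_add_C _
  have hdeg : f.natDegree = n := by
    rw [hf, natDegree_prod_of_monic _ _ fun j _ => monic_X_add_C _]
    simp
  have hroot : f.rootMultiplicity (-(c j)) = 1 := by
    rw [hf, rm_prod]
    have : (univ.filter fun i => c i = -(-(c j))) = {j} := by
      ext i
      rw [neg_neg, mem_filter, mem_singleton]
      constructor
      · rintro ⟨-, h⟩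
        by_contra hij
        exact hj i hij h
      · rintro rfl
        exact ⟨mem_univ _, rfl⟩
    rw [this, card_singleton]
  have hns : ∀ (d : F) (h : F[X]), f ≠ C d * h ^ 2 := by
    intro d h hfh
    have hf0 : f ≠ 0 := hm1.ne_zero
    have hd0 : d ≠ 0 := by
      rintro rfl
      exact hf0 (by rw [hfh]; simp)
    have hh0 : h ≠ 0 := by
      rintro rfl
      exact hf0 (by rw [hfh]; simp)
    rw [hfh, ← count_roots, roots_C_mul _ hd0, roots_pow, Multiset.count_nsmul] at hroot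
    omega
  have := Pool.Agent.H341R2.weil_bound (F := F) hF f (by omega) hns
  rw [hdeg] at this
  calc _ = |∑ x : F, (quadraticChar F (f.eval x) : ℝ)| := by
        congr 1
        refine Finset.sum_congr rfl fun x _ => ?_
        rw [hf, eval_prod, map_prod]
        simp
    _ ≤ _ := this

/-! ## Jacobi symbols -/

lemma XM_nat (M : ℕ) [NeZero M] (n : ℕ) : XM M (n : ZMod M) = ((jacobiSym (n : ℤ) M : ℤ) : ℝ) := by
  unfold XM
  rw [ZMod.val_natCast, Int.natCast_mod, ← jacobiSym.mod_left]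

lemma XM_mod (a b : ℕ) [NeZero a] [NeZero b] [NeZero (a * b)] (x : ZMod (a * b)) :
    XM (a * b) x = XM a (ZMod.castHom (dvd_mul_right a b) (ZMod a) x) *
      XM b (ZMod.castHom (dvd_mul_left b a) (ZMod b) x) := by
  have hx : x = ((x.val : ℕ) : ZMod (a * b)) := (ZMod.natCast_zmod_val x).symm
  rw [hx, map_natCast (ZMod.castHom (dvd_mul_right a b) (ZMod a)),
    map_natCast (ZMod.castHom (dvd_mul_left b a) (ZMod b)), XM_nat, XM_nat, XM_nat,
    jacobiSym.mul_right' _ (NeZero.ne a) (NeZero.ne b)]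
  push_cast
  ring

lemma XM_prime (p : ℕ) [Fact p.Prime] (x : ZMod p) :
    XM p x = ((quadraticChar (ZMod p) x : ℤ) : ℝ) := by
  unfold XM
  rw [← jacobiSym.legendreSym.to_jacobiSym, legendreSym]
  congr 2
  simp

lemma XM_abs_le (M : ℕ) (x : ZMod M) : |XM M x| ≤ 1 := by
  unfold XM
  rcases jacobiSym.trichotomy (x.val : ℤ) M with h | h | h <;> rw [h] <;> simp

lemma XM_mul (p : ℕ) [Fact p.Prime] (x y : ZMod p) : XM p (x * y) = XM p x * XM p y := by
  rw [XM_prime, XM_prime, XM_prime, map_mul]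
  push_cast
  rfl

/-! ## The sums -/

section sums

variable {m : ℕ} (c : Fin m → ℕ)

/-- the sum over `ZMod n` -/
noncomputable def SM (n : ℕ) [NeZero n] : ℝ := ∑ x : ZMod n, ∏ i, XM n (x + (c i : ZMod n))

/-- the sum over `(ℤ/n)[ω]` in coordinates -/
noncomputable def SG (n : ℕ) [NeZero n] : ℝ :=
  ∑ x : ZMod n, ∑ y : ZMod n, ∏ i, XM n ((x + (c i : ZMod n)) ^ 2 - (x + (c i : ZMod n)) * y + y ^ 2)

lemma SG_eq (n : ℕ) [NeZero n] : ∑ z : Eg n, ∏ i, XG n (z + (c i : Eg n)) = SG c n := by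
  unfold SG
  rw [← Fintype.sum_prod_type' (f := fun x y => ∏ i, XM n ((x + (c i : ZMod n)) ^ 2 -
    (x + (c i : ZMod n)) * y + y ^ 2))]
  refine Fintype.sum_equiv (QuadraticAlgebra.equivProd (-1) (-1)) _ _ fun z => ?_
  refine Finset.prod_congr rfl fun i _ => ?_
  unfold XG XM
  have : QuadraticAlgebra.norm (z + (c i : Eg n)) = (z.re + (c i : ZMod n)) ^ 2 -
      (z.re + (c i : ZMod n)) * z.im + z.im ^ 2 := by
    rw [QuadraticAlgebra.norm_def]
    simp only [QuadraticAlgebra.re_add, QuadraticAlgebra.im_add, QuadraticAlgebra.re_natCast,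
      QuadraticAlgebra.im_natCast]
    ring
  rw [this]
  rfl

lemma crt_sum (a b : ℕ) [NeZero a] [NeZero b] [NeZero (a * b)] (hco : Nat.Coprime a b)
    (G : ZMod a → ZMod b → ℝ) :
    ∑ x : ZMod (a * b), G (ZMod.castHom (dvd_mul_right a b) (ZMod a) x)
      (ZMod.castHom (dvd_mul_left b a) (ZMod b) x) = ∑ u, ∑ v, G u v := by
  let e := ZMod.chineseRemainder hco
  have hφ : ∀ x, (e x).1 = ZMod.castHom (dvd_mul_right a b) (ZMod a) x := by
    intro x
    have : ((RingHom.fst (ZMod a) (ZMod b)).comp e.toRingHom) =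
      ZMod.castHom (dvd_mul_right a b) (ZMod a) := Subsingleton.elim _ _
    exact DFunLike.congr_fun this x
  have hψ : ∀ x, (e x).2 = ZMod.castHom (dvd_mul_left b a) (ZMod b) x := by
    intro x
    have : ((RingHom.snd (ZMod a) (ZMod b)).comp e.toRingHom) =
      ZMod.castHom (dvd_mul_left b a) (ZMod b) := Subsingleton.elim _ _
    exact DFunLike.congr_fun this x
  rw [← Fintype.sum_prod_type' (f := G)]
  refine Fintype.sum_equiv e.toEquiv _ _ fun x => ?_
  have k1 : (e.toEquiv x).1 = ZMod.castHom (dvd_mul_right a b) (ZMod a) x := hφ x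
  have k2 : (e.toEquiv x).2 = ZMod.castHom (dvd_mul_left b a) (ZMod b) x := hψ x
  rw [k1, k2]

lemma SM_mul (a b : ℕ) [NeZero a] [NeZero b] [NeZero (a * b)] (hco : Nat.Coprime a b) :
    SM c (a * b) = SM c a * SM c b := by
  unfold SM
  rw [Finset.sum_mul_sum, ← crt_sum a b hco]
  refine Finset.sum_congr rfl fun x _ => ?_
  rw [← Finset.prod_mul_distrib]
  refine Finset.prod_congr rfl fun i _ => ?_
  rw [XM_mod a b]
  simp only [map_add, map_natCast]

lemma SG_mul (a b : ℕ) [NeZero a] [NeZero b] [NeZero (a * b)] (hco : Nat.Coprime a b) :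
    SG c (a * b) = SG c a * SG c b := by
  unfold SG
  obtain ⟨h1, hh1⟩ : ∃ h1 : ZMod a → ZMod a → ℝ, h1 = fun x y =>
    ∏ i, XM a ((x + (c i : ZMod a)) ^ 2 - (x + (c i : ZMod a)) * y + y ^ 2) := ⟨_, rfl⟩
  obtain ⟨h2, hh2⟩ : ∃ h2 : ZMod b → ZMod b → ℝ, h2 = fun x y =>
    ∏ i, XM b ((x + (c i : ZMod b)) ^ 2 - (x + (c i : ZMod b)) * y + y ^ 2) := ⟨_, rfl⟩
  have e1 : ∀ x y : ZMod (a * b), ∏ i, XM (a * b) ((x + (c i : ZMod (a * b))) ^ 2 -
      (x + (c i : ZMod (a * b))) * y + y ^ 2) =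
      h1 (ZMod.castHom (dvd_mul_right a b) (ZMod a) x) (ZMod.castHom (dvd_mul_right a b) (ZMod a) y) *
      h2 (ZMod.castHom (dvd_mul_left b a) (ZMod b) x) (ZMod.castHom (dvd_mul_left b a) (ZMod b) y) := by
    intro x y
    rw [hh1, hh2, ← Finset.prod_mul_distrib]
    refine Finset.prod_congr rfl fun i _ => ?_
    rw [XM_mod a b]
    simp only [map_add, map_natCast, map_sub, map_mul, map_pow]
  simp only [e1]
  have e2 : ∀ x : ZMod (a * b), ∑ y : ZMod (a * b),
      h1 (ZMod.castHom (dvd_mul_right a b) (ZMod a) x) (ZMod.castHom (dvd_mul_right a b) (ZMod a) y) *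
      h2 (ZMod.castHom (dvd_mul_left b a) (ZMod b) x) (ZMod.castHom (dvd_mul_left b a) (ZMod b) y) =
      (fun s t => (∑ u, h1 s u) * ∑ v, h2 t v) (ZMod.castHom (dvd_mul_right a b) (ZMod a) x)
        (ZMod.castHom (dvd_mul_left b a) (ZMod b) x) := by
    intro x
    simp only
    rw [Finset.sum_mul_sum]
    exact crt_sum a b hco (fun u v => h1 (ZMod.castHom (dvd_mul_right a b) (ZMod a) x) u *
      h2 (ZMod.castHom (dvd_mul_left b a) (ZMod b) x) v)
  rw [Finset.sum_congr rfl fun x _ => e2 x, crt_sum a b hco (fun s t => (∑ u, h1 s u) * ∑ v, h2 t v),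
    ← Finset.sum_mul_sum, hh1, hh2]

lemma SM_le (n : ℕ) [NeZero n] : |SM c n| ≤ n := by
  unfold SM
  refine (Finset.abs_sum_le_sum_abs _ _).trans ?_
  calc ∑ x : ZMod n, |∏ i, XM n (x + (c i : ZMod n))| ≤ ∑ _x : ZMod n, (1 : ℝ) := by
        refine Finset.sum_le_sum fun x _ => ?_
        rw [Finset.abs_prod]
        exact Finset.prod_le_one (fun _ _ => abs_nonneg _) fun _ _ => XM_abs_le _ _
    _ = n := by simp

lemma SG_le (n : ℕ) [NeZero n] : |SG c n| ≤ (n : ℝ) ^ 2 := by
  unfold SG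
  refine (Finset.abs_sum_le_sum_abs _ _).trans ?_
  calc ∑ x : ZMod n, |∑ y : ZMod n, ∏ i, XM n ((x + (c i : ZMod n)) ^ 2 -
          (x + (c i : ZMod n)) * y + y ^ 2)| ≤ ∑ _x : ZMod n, ∑ _y : ZMod n, (1 : ℝ) := by
        refine Finset.sum_le_sum fun x _ => ?_
        refine (Finset.abs_sum_le_sum_abs _ _).trans (Finset.sum_le_sum fun y _ => ?_)
        rw [Finset.abs_prod]
        exact Finset.prod_le_one (fun _ _ => abs_nonneg _) fun _ _ => XM_abs_le _ _
    _ = (n : ℝ) ^ 2 := by simp; ring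

/-! ## The local bounds -/

lemma SM_prime (p : ℕ) [Fact p.Prime] (hp2 : p ≠ 2) (hm : 1 ≤ m) (j : Fin m)
    (hj : ∀ i, i ≠ j → (c i : ZMod p) ≠ (c j : ZMod p)) : |SM c p| ≤ 5 * m * √p := by
  have := field_le (F := ZMod p) (by rw [ZMod.ringChar_zmod_n]; exact hp2) hm
    (fun i => (c i : ZMod p)) j hj
  rw [ZMod.card] at this
  unfold SM
  simpa only [XM_prime] using this

/-- `p ≡ 1 mod 3`: the sum is a square -/
lemma SG_prime_one (p : ℕ) [Fact p.Prime] (h3 : p % 3 = 1) : SG c p = SM c p ^ 2 := by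
  have hp : p.Prime := Fact.out
  obtain ⟨ζ, hζ⟩ : ∃ ζ : ZMod p, ζ ^ 2 + ζ + 1 = 0 := by
    haveI : Fact (Nat.Prime 3) := ⟨Nat.prime_three⟩
    obtain ⟨x, hx⟩ := exists_prime_orderOf_dvd_card (G := (ZMod p)ˣ) 3
      (by rw [ZMod.card_units]; omega)
    refine ⟨(x : ZMod p), ?_⟩
    have h1 : (x : ZMod p) ^ 3 = 1 := by
      have := pow_orderOf_eq_one x
      rw [hx] at this
      have h5 := congrArg Units.val this
      rwa [Units.val_pow_eq_pow_val, Units.val_one] at h5
    have h2 : (x : ZMod p) ≠ 1 := by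
      intro h
      have : x = 1 := Units.ext h
      rw [this, orderOf_one] at hx
      omega
    have h3 : ((x : ZMod p) - 1) * ((x : ZMod p) ^ 2 + x + 1) = 0 := by linear_combination h1
    rcases mul_eq_zero.1 h3 with h4 | h4
    · exact absurd (sub_eq_zero.1 h4) h2
    · exact h4
  have h30 : (3 : ZMod p) ≠ 0 := by
    intro h
    have : ((3 : ℕ) : ZMod p) = 0 := by exact_mod_cast h
    rw [ZMod.natCast_eq_zero_iff] at this
    have := (Nat.prime_dvd_prime_iff_eq hp Nat.prime_three).1 this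
    omega
  have hd : (2 * ζ + 1) ≠ 0 := by
    intro h
    apply h30
    linear_combination 4 * hζ - (2 * ζ + 1) * h
  -- the linear change of variables
  let e : ZMod p × ZMod p ≃ ZMod p × ZMod p :=
    { toFun := fun z => (z.1 + z.2 * ζ, z.1 + z.2 * (-1 - ζ))
      invFun := fun w => (w.1 - (w.1 - w.2) / (2 * ζ + 1) * ζ, (w.1 - w.2) / (2 * ζ + 1))
      left_inv := by
        rintro ⟨x, y⟩
        have h1 : (x + y * ζ - (x + y * (-1 - ζ))) / (2 * ζ + 1) = y := by
          rw [div_eq_iff hd]; ring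
        simp only [h1]
        ext <;> simp
      right_inv := by
        rintro ⟨u, v⟩
        have h1 : (u - v) / (2 * ζ + 1) * (2 * ζ + 1) = u - v := div_mul_cancel₀ _ hd
        ext
        · simp
        · simp only
          linear_combination (-1 : ZMod p) * h1 }
  unfold SG SM
  rw [sq, Finset.sum_mul_sum, ← Fintype.sum_prod_type' (f := fun x y => ∏ i, XM p ((x + (c i : ZMod p)) ^ 2 -
    (x + (c i : ZMod p)) * y + y ^ 2)), ← Fintype.sum_prod_type' (f := fun u v =>
      (∏ i, XM p (u + (c i : ZMod p))) * ∏ i, XM p (v + (c i : ZMod p)))]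
  refine Fintype.sum_equiv e _ _ fun z => ?_
  rw [← Finset.prod_mul_distrib]
  refine Finset.prod_congr rfl fun i _ => ?_
  rw [← XM_mul]
  congr 1
  show _ = (z.1 + z.2 * ζ + (c i : ZMod p)) * (z.1 + z.2 * (-1 - ζ) + (c i : ZMod p))
  linear_combination (z.2 ^ 2) * hζ

/-- `p ≡ 2 mod 3`: a character sum in the field with `p²` elements -/
lemma SG_prime_two (p : ℕ) [Fact p.Prime] (hp2 : p ≠ 2) (h3 : p % 3 = 2) (hm : 1 ≤ m) (j : Fin m)
    (hj : ∀ i, i ≠ j → (c i : ZMod p) ≠ (c j : ZMod p)) : |SG c p| ≤ 5 * m * p := by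
  classical
  have hp : p.Prime := Fact.out
  have hfact : Fact (∀ r : ZMod p, r ^ 2 ≠ (-1) + (-1) * r) := ⟨by
    intro r hr
    have h1 : r ^ 3 = 1 := by linear_combination (r - 1) * hr
    have h2 : r ≠ 0 := by
      rintro rfl
      simp at hr
    have h4 : r ^ (p - 1) = 1 := ZMod.pow_card_sub_one_eq_one h2
    obtain ⟨k, hk⟩ : ∃ k, p - 1 = 3 * k + 1 := ⟨(p - 1) / 3, by have := hp.two_le; omega⟩
    rw [hk, pow_succ, pow_mul, h1, one_pow, one_mul] at h4
    rw [h4] at hr
    have h5 : (3 : ZMod p) = 0 := by linear_combination hr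
    have h6 : ((3 : ℕ) : ZMod p) = 0 := by exact_mod_cast h5
    rw [ZMod.natCast_eq_zero_iff] at h6
    have := (Nat.prime_dvd_prime_iff_eq hp Nat.prime_three).1 h6
    omega⟩
  have hchp : CharP (Eg p) p := by
    refine ⟨fun x => ?_⟩
    have h1 : (x : Eg p) = algebraMap (ZMod p) (Eg p) (x : ZMod p) := (map_natCast _ x).symm
    rw [h1, ← map_zero (algebraMap (ZMod p) (Eg p)), QuadraticAlgebra.algebraMap_inj]
    exact ZMod.natCast_eq_zero_iff x p
  have hchar : ringChar (Eg p) = p := ringChar.eq (Eg p) p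
  have hcard : Fintype.card (Eg p) = p ^ 2 := by
    rw [Fintype.card_congr (QuadraticAlgebra.equivProd (-1 : ZMod p) (-1)), Fintype.card_prod,
      ZMod.card]
    ring
  -- Frobenius is the conjugation
  have hfrob : ∀ z : Eg p, z ^ p = star z := by
    intro z
    obtain ⟨w, hw⟩ : ∃ w : Eg p, w = ⟨0, 1⟩ := ⟨_, rfl⟩
    have hw2 : w * w = -1 - w := by
      rw [hw]
      ext <;> simp [QuadraticAlgebra.re_one, QuadraticAlgebra.im_one]
    have hw3 : w ^ 3 = 1 := by linear_combination (w - 1) * hw2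
    have hwp : w ^ p = -1 - w := by
      obtain ⟨k, hk⟩ : ∃ k, p = 3 * k + 2 := ⟨p / 3, by omega⟩
      have h1 : w ^ p = w ^ (3 * k + 2) := congrArg (fun t => w ^ t) hk
      rw [h1, pow_add, pow_mul, hw3, one_pow, one_mul, sq, hw2]
    have hz : z = algebraMap (ZMod p) (Eg p) z.re + algebraMap (ZMod p) (Eg p) z.im * w := by
      rw [hw]
      ext <;> simp
    conv_lhs => rw [hz]
    rw [add_pow_char, mul_pow, ← map_pow, ← map_pow, ZMod.pow_card, ZMod.pow_card, hwp, hw]
    ext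
    · simp [QuadraticAlgebra.re_one, QuadraticAlgebra.im_one]
    · simp [QuadraticAlgebra.re_one, QuadraticAlgebra.im_one]
  have hqc : ∀ z : Eg p, quadraticChar (Eg p) z = quadraticChar (ZMod p) (QuadraticAlgebra.norm z) := by
    intro z
    have h1 := quadraticChar_eq_pow_of_char_ne_two' (F := Eg p) (by rw [hchar]; exact hp2) z
    have h2 := quadraticChar_eq_pow_of_char_ne_two' (F := ZMod p)
      (by rw [ZMod.ringChar_zmod_n]; exact hp2) (QuadraticAlgebra.norm z)
    rw [ZMod.card] at h2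
    have h4 : p ^ 2 / 2 = (p + 1) * (p / 2) := by
      obtain ⟨k, hk⟩ := hp.odd_of_ne_two hp2
      have e1 : p / 2 = k := by omega
      have e2 : p ^ 2 = 2 * (2 * k * k + 2 * k) + 1 := by rw [hk]; ring
      rw [e1, e2, hk]
      have : (2 * (2 * k * k + 2 * k) + 1) / 2 = 2 * k * k + 2 * k := by omega
      rw [this]
      ring
    have h5 : z ^ (p + 1) = algebraMap (ZMod p) (Eg p) (QuadraticAlgebra.norm z) := by
      rw [QuadraticAlgebra.algebraMap_norm_eq_mul_star, pow_succ, hfrob, mul_comm]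
    rw [hcard, h4, pow_mul, h5, ← map_pow, ← h2, map_intCast] at h1
    have h6 : ((quadraticChar (Eg p) z - quadraticChar (ZMod p) (QuadraticAlgebra.norm z) : ℤ) : Eg p) = 0 := by
      push_cast
      rw [h1, sub_self]
    rw [CharP.intCast_eq_zero_iff (Eg p) p] at h6
    have hp3 : 3 ≤ p := by
      have := hp.two_le
      omega
    have h7 : |quadraticChar (Eg p) z - quadraticChar (ZMod p) (QuadraticAlgebra.norm z)| < (p : ℤ) := by
      have b1 : |quadraticChar (Eg p) z| ≤ 1 := by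
        by_cases hz : z = 0
        · rw [hz]; simp
        · rcases quadraticChar_dichotomy hz with h | h <;> rw [h] <;> simp
      have b2 : |quadraticChar (ZMod p) (QuadraticAlgebra.norm z)| ≤ 1 := by
        by_cases hz : QuadraticAlgebra.norm z = 0
        · rw [hz]; simp
        · rcases quadraticChar_dichotomy hz with h | h <;> rw [h] <;> simp
      have := abs_sub (quadraticChar (Eg p) z) (quadraticChar (ZMod p) (QuadraticAlgebra.norm z))
      omega
    have h8 := Int.eq_zero_of_abs_lt_dvd h6 h7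
    omega
  have key := field_le (F := Eg p) (by rw [hchar]; exact hp2) hm (fun i => (c i : Eg p)) j (by
    intro i hij h
    apply hj i hij
    have := congrArg QuadraticAlgebra.re h
    rwa [QuadraticAlgebra.re_natCast, QuadraticAlgebra.re_natCast] at this)
  rw [hcard] at key
  have hs : √((p ^ 2 : ℕ) : ℝ) = p := by
    push_cast
    exact Real.sqrt_sq (Nat.cast_nonneg p)
  rw [hs] at key
  rw [← SG_eq]
  refine le_trans (le_of_eq ?_) key
  congr 1
  refine Finset.sum_congr rfl fun z _ => Finset.prod_congr rfl fun i _ => ?_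
  rw [hqc]
  exact XM_prime p _

end sums

/-! ## Composite moduli -/

lemma mult_bound (f s : ℕ → ℝ) (K : ℝ) (hK : 0 ≤ K) (Δ : ℕ) (P : ℕ → Prop)
    (hP : ∀ a b, P (a * b) → P a ∧ P b) (hf1 : |f 1| ≤ s 1)
    (hf : ∀ a b, Nat.Coprime a b → a ≠ 0 → b ≠ 0 → f (a * b) = f a * f b)
    (hs : ∀ a b, s (a * b) = s a * s b) (hs0 : ∀ a, 0 ≤ s a)
    (hp : ∀ p : ℕ, p.Prime → P p → |f p| ≤ K * s p * (Nat.gcd Δ p : ℝ)) (n : ℕ) :
    Squarefree n → P n → |f n| ≤ K ^ n.primeFactors.card * s n * (Nat.gcd Δ n : ℝ) := by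
  induction n using Nat.recOnPrimeCoprime with
  | zero =>
    intro h
    exact absurd h not_squarefree_zero
  | prime_pow p k hpp =>
    intro hsq hPn
    rcases Nat.eq_zero_or_pos k with hk | hk
    · subst hk
      simpa using hf1
    · have hk1 : k = 1 := by
        by_contra hne
        have : p * p ∣ p ^ k := by
          rw [← sq]
          exact pow_dvd_pow p (by omega)
        exact hpp.not_isUnit (hsq p this)
      subst hk1
      rw [pow_one] at hPn ⊢
      rw [hpp.primeFactors, card_singleton, pow_one]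
      exact hp p hpp hPn
  | coprime a b ha hb hco iha ihb =>
    intro hsq hPn
    have h1 := iha hsq.of_mul_left (hP a b hPn).1
    have h2 := ihb hsq.of_mul_right (hP a b hPn).2
    rw [hf a b hco (by omega) (by omega), hs, Nat.Coprime.gcd_mul _ hco, Nat.Coprime.primeFactors_mul hco,
      Finset.card_union_of_disjoint (Nat.Coprime.disjoint_primeFactors hco), pow_add, abs_mul]
    refine (mul_le_mul h1 h2 (abs_nonneg _) ?_).trans (le_of_eq ?_)
    · have := hs0 a
      positivity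
    · push_cast
      ring

/-- the local gcd -/
lemma gcd_big {m : ℕ} (c : Fin m → ℕ) (j : Fin m) (p : ℕ) (hp : p.Prime)
    (h : ¬ ∀ i, i ≠ j → (c i : ZMod p) ≠ (c j : ZMod p)) :
    Nat.gcd (∏ i ∈ univ.erase j, ((c i : ℤ) - c j).natAbs) p = p := by
  push Not at h
  obtain ⟨i, hij, hi⟩ := h
  apply Nat.gcd_eq_right
  refine Dvd.dvd.trans ?_ (Finset.dvd_prod_of_mem _ (mem_erase.mpr ⟨hij, mem_univ _⟩))
  rw [← Int.natCast_dvd, ← ZMod.intCast_zmod_eq_zero_iff_dvd]
  push_cast
  rw [hi, sub_self]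

/-- total versions -/
noncomputable def fM {m : ℕ} (c : Fin m → ℕ) (n : ℕ) : ℝ :=
  if h : n = 0 then 0 else haveI : NeZero n := ⟨h⟩; SM c n

noncomputable def fG {m : ℕ} (c : Fin m → ℕ) (n : ℕ) : ℝ :=
  if h : n = 0 then 0 else haveI : NeZero n := ⟨h⟩; SG c n

lemma fM_eq {m : ℕ} (c : Fin m → ℕ) (n : ℕ) [h : NeZero n] : fM c n = SM c n := by
  unfold fM
  rw [dif_neg h.out]

lemma fG_eq {m : ℕ} (c : Fin m → ℕ) (n : ℕ) [h : NeZero n] : fG c n = SG c n := by
  unfold fG
  rw [dif_neg h.out]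

theorem t_TUP : S_TUP := by
  classical
  intro r hr
  refine ⟨(10 * r : ℝ) ^ 2, ?_, ?_⟩
  · have : (1 : ℝ) ≤ r := by exact_mod_cast hr
    nlinarith
  intro M g _ _ hgood c j hj
  obtain ⟨hMo, hgo, hsq, hg3⟩ := hgood
  have hr1 : (1 : ℝ) ≤ r := by exact_mod_cast hr
  obtain ⟨K, hK⟩ : ∃ K : ℝ, K = (10 * r : ℝ) ^ 2 := ⟨_, rfl⟩
  rw [← hK]
  have hK1 : (1 : ℝ) ≤ K := by rw [hK]; nlinarith
  have hKr : (5 * ((2 * r : ℕ) : ℝ)) ≤ K := by rw [hK]; push_cast; nlinarith
  obtain ⟨Δ, hΔ⟩ : ∃ Δ : ℕ, Δ = ∏ i ∈ univ.erase j, ((c i : ℤ) - c j).natAbs := ⟨_, rfl⟩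
  rw [← hΔ]
  have hco : Nat.Coprime M g := Nat.coprime_of_squarefree_mul hsq
  have hgp : ∀ p : ℕ, p.Prime → (1 : ℝ) ≤ (Nat.gcd Δ p : ℝ) := by
    intro p hp
    exact_mod_cast Nat.gcd_pos_of_pos_right _ hp.pos
  -- the factorisation
  have e1 : ∑ x : RR M g, ∏ i, XR M g (x + (c i : RR M g)) = SM c M * SG c g := by
    rw [← SG_eq]
    unfold SM
    rw [Finset.sum_mul_sum, Fintype.sum_prod_type]
    refine Finset.sum_congr rfl fun u _ => Finset.sum_congr rfl fun v _ => ?_
    rw [← Finset.prod_mul_distrib]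
    rfl
  have bM : |SM c M| ≤ K ^ M.primeFactors.card * √M * (Nat.gcd Δ M : ℝ) := by
    have := mult_bound (fM c) (fun n => √(n : ℝ)) K (by linarith) Δ Odd
      (fun a b h => Nat.odd_mul.mp h) ?_ ?_ ?_ (fun a => Real.sqrt_nonneg _) ?_ M hsq.of_mul_left hMo
    · rwa [fM_eq] at this
    · rw [fM_eq]
      simpa using SM_le c 1
    · intro a b hab ha hb
      haveI : NeZero a := ⟨ha⟩
      haveI : NeZero b := ⟨hb⟩
      haveI : NeZero (a * b) := ⟨mul_ne_zero ha hb⟩
      rw [fM_eq, fM_eq, fM_eq, SM_mul c a b hab]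
    · intro a b
      simp only [Nat.cast_mul]
      exact Real.sqrt_mul (Nat.cast_nonneg a) _
    · intro p hp hpo
      haveI : Fact p.Prime := ⟨hp⟩
      have hp2 : p ≠ 2 := by rintro rfl; exact absurd hpo (by decide)
      rw [fM_eq]
      have hsp : 0 ≤ √(p : ℝ) := Real.sqrt_nonneg _
      have hg1 := hgp p hp
      by_cases h : ∀ i, i ≠ j → (c i : ZMod p) ≠ (c j : ZMod p)
      · have h1 := SM_prime c p hp2 (by omega) j h
        calc |SM c p| ≤ 5 * ((2 * r : ℕ) : ℝ) * √p := h1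
          _ ≤ K * √p := mul_le_mul_of_nonneg_right hKr hsp
          _ ≤ K * √p * (Nat.gcd Δ p : ℝ) := le_mul_of_one_le_right (by positivity) hg1
      · have h2 : Nat.gcd Δ p = p := by rw [hΔ]; exact gcd_big c j p hp h
        rw [h2]
        have h3 : (1 : ℝ) ≤ √(p : ℝ) := by
          rw [Real.one_le_sqrt]; exact_mod_cast hp.one_lt.le
        calc |SM c p| ≤ p := SM_le c p
          _ ≤ K * √p * p := le_mul_of_one_le_left (by positivity) (by nlinarith)
  have bG : |SG c g| ≤ K ^ g.primeFactors.card * (g : ℝ) * (Nat.gcd Δ g : ℝ) := by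
    have := mult_bound (fG c) (fun n => (n : ℝ)) K (by linarith) Δ (fun n => Odd n ∧ ¬ 3 ∣ n)
      (fun a b h => ?_) ?_ ?_ ?_ (fun a => Nat.cast_nonneg _) ?_ g hsq.of_mul_right ⟨hgo, hg3⟩
    · rwa [fG_eq] at this
    · exact ⟨⟨(Nat.odd_mul.mp h.1).1, fun h3 => h.2 (h3.mul_right b)⟩,
        ⟨(Nat.odd_mul.mp h.1).2, fun h3 => h.2 (h3.mul_left a)⟩⟩
    · rw [fG_eq]
      simpa using SG_le c 1
    · intro a b hab ha hb
      haveI : NeZero a := ⟨ha⟩
      haveI : NeZero b := ⟨hb⟩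
      haveI : NeZero (a * b) := ⟨mul_ne_zero ha hb⟩
      rw [fG_eq, fG_eq, fG_eq, SG_mul c a b hab]
    · intro a b
      push_cast
      rfl
    · rintro p hp ⟨hpo, hp3⟩
      haveI : Fact p.Prime := ⟨hp⟩
      have hp2 : p ≠ 2 := by rintro rfl; exact absurd hpo (by decide)
      rw [fG_eq]
      have hg1 := hgp p hp
      have hp0 : (0 : ℝ) ≤ p := Nat.cast_nonneg p
      by_cases h : ∀ i, i ≠ j → (c i : ZMod p) ≠ (c j : ZMod p)
      · have h1 : |SG c p| ≤ K * p := by
          have hp33 : p % 3 = 1 ∨ p % 3 = 2 := by omega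
          rcases hp33 with h3 | h3
          · rw [SG_prime_one c p h3, abs_pow]
            have h4 := SM_prime c p hp2 (by omega) j h
            calc |SM c p| ^ 2 ≤ (5 * ((2 * r : ℕ) : ℝ) * √p) ^ 2 :=
                  pow_le_pow_left₀ (abs_nonneg _) h4 2
              _ = K * p := by
                  rw [hK, mul_pow, Real.sq_sqrt hp0]
                  push_cast
                  ring
          · refine (SG_prime_two c p hp2 h3 (by omega) j h).trans ?_
            exact mul_le_mul_of_nonneg_right hKr hp0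
        refine h1.trans (le_mul_of_one_le_right (by positivity) hg1)
      · have h2 : Nat.gcd Δ p = p := by rw [hΔ]; exact gcd_big c j p hp h
        rw [h2]
        calc |SG c p| ≤ (p : ℝ) ^ 2 := SG_le c p
          _ ≤ K * p * p := by nlinarith [mul_nonneg hp0 hp0]
  have hsqrt : √((M * g ^ 2 : ℕ) : ℝ) = √(M : ℝ) * g := by
    push_cast
    rw [Real.sqrt_mul (Nat.cast_nonneg M), Real.sqrt_sq (Nat.cast_nonneg g)]
  rw [e1, abs_mul, hsqrt, Nat.Coprime.gcd_mul _ hco, Nat.Coprime.primeFactors_mul hco,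
    Finset.card_union_of_disjoint (Nat.Coprime.disjoint_primeFactors hco), pow_add]
  refine (mul_le_mul bM bG (abs_nonneg _) (by positivity)).trans (le_of_eq ?_)
  push_cast
  ring

end Pool.Agent.K1H72.Q3
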